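import Pool.Agent.H95.UF
set_option autoImplicit false
open Pool.Agent.H95.UF

theorem Pool.Agent.Results.MP_83c1a8_pr.Main.result :
    ∃ (n : ℕ) (G : SimpleGraph (Fin n)) (e : Sym2 (Fin n)), G.Connected ∧ e ∈ G.edgeSet ∧ 2 ≤ n ∧
      n + 2 ≤ G.edgeSet.ncard ∧ marg (forests G 1) e < marg (forests G 2) e :=
  ⟨7, G0, s(0, 1), main.1, main.2.1, by decide, by rw [main.2.2.1]; decide, main.2.2.2⟩
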